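import Pool.Agent.W669.HD.Stm5

/-!
# Expansion of two factors which live on five vectors
-/

set_option autoImplicit false

namespace Pool.Agent.W60.HD

open Pool.Agent.W666.GB Pool.Agent.W669.HD Finset

variable {m : ℕ}

theorem expand (u v : Fin 4 → Fin 5 → ℝ) (K' L' : Q5) :
    (∑ p, ∑ q, ∑ r, ∑ s, u 0 p * u 1 q * v 0 r * v 1 s * K' p q r s) *
      (∑ p, ∑ q, ∑ r, ∑ s, u 2 p * u 3 q * v 2 r * v 3 s * L' p q r s) =
    ∑ F : Fin 4 → Fin 5, ∑ G : Fin 4 → Fin 5,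
      K' (F 0) (F 1) (G 0) (G 1) * L' (F 2) (F 3) (G 2) (G 3) *
        ((∏ i, u i (F i)) * ∏ i, v i (G i)) := by
  simp only [← Fintype.sum_prod_type']
  rw [Finset.sum_mul_sum]
  simp only [← Fintype.sum_prod_type']
  refine Fintype.sum_equiv
    ⟨fun x => (![x.1.1, x.1.2.1, x.2.1, x.2.2.1], ![x.1.2.2.1, x.1.2.2.2, x.2.2.2.1, x.2.2.2.2]),
      fun y => ((y.1 0, y.1 1, y.2 0, y.2 1), (y.1 2, y.1 3, y.2 2, y.2 3)),
      fun x => rfl, fun y => ?_⟩ _ _ ?_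
  · refine Prod.ext ?_ ?_
    · funext i
      fin_cases i <;> rfl
    · funext i
      fin_cases i <;> rfl
  · rintro ⟨⟨p, q, r, s⟩, p', q', r', s'⟩
    change u 0 p * u 1 q * v 0 r * v 1 s * K' p q r s *
      (u 2 p' * u 3 q' * v 2 r' * v 3 s' * L' p' q' r' s') =
      K' p q r s * L' p' q' r' s' *
        ((∏ i, u i (![p, q, p', q'] i)) * ∏ i, v i (![r, s, r', s'] i))
    rw [Fin.prod_univ_four, Fin.prod_univ_four]
    change u 0 p * u 1 q * v 0 r * v 1 s * K' p q r s *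
      (u 2 p' * u 3 q' * v 2 r' * v 3 s' * L' p' q' r' s') =
      K' p q r s * L' p' q' r' s' *
        ((u 0 p * u 1 q * u 2 p' * u 3 q') * (v 0 r * v 1 s * v 2 r' * v 3 s'))
    ring

theorem exp5 : S_EXP5 := by
  intro m w S C a K' L' b₀ b₁ h0 h1 hb hK hL
  classical
  set R : Equiv.Perm (Fin m × Bool) → Equiv.Perm (Fin m × Bool) → ℝ := fun σ τ =>
    ∏ b ∈ (S.erase b₀).erase b₁, C b (σ (b, false)) (σ (b, true)) (τ (b, false)) (τ (b, true))
    with hR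
  have e1 : ∀ σ τ : Equiv.Perm (Fin m × Bool),
      sn σ * sn τ * (w σ * w τ *
        ∏ b ∈ S, C b (σ (b, false)) (σ (b, true)) (τ (b, false)) (τ (b, true))) =
      ∑ F : Fin 4 → Fin 5, ∑ G : Fin 4 → Fin 5,
        K' (F 0) (F 1) (G 0) (G 1) * L' (F 2) (F 3) (G 2) (G 3) *
          (sn σ * sn τ * ((w σ * awF a b₀ b₁ F σ) * (w τ * awF a b₀ b₁ G τ) * R σ τ)) := by
    intro σ τ
    have e2 : ∏ b ∈ S, C b (σ (b, false)) (σ (b, true)) (τ (b, false)) (τ (b, true)) =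
        C b₀ (σ (b₀, false)) (σ (b₀, true)) (τ (b₀, false)) (τ (b₀, true)) *
        (C b₁ (σ (b₁, false)) (σ (b₁, true)) (τ (b₁, false)) (τ (b₁, true)) * R σ τ) := by
      rw [← Finset.mul_prod_erase S _ h0,
        ← Finset.mul_prod_erase (S.erase b₀) _ (Finset.mem_erase.2 ⟨hb, h1⟩)]
    have e3 := expand (fun i p => a (σ (slot b₀ b₁ i)) p) (fun i p => a (τ (slot b₀ b₁ i)) p)
      K' L'
    have e4 : C b₀ (σ (b₀, false)) (σ (b₀, true)) (τ (b₀, false)) (τ (b₀, true)) *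
        C b₁ (σ (b₁, false)) (σ (b₁, true)) (τ (b₁, false)) (τ (b₁, true)) =
        ∑ F : Fin 4 → Fin 5, ∑ G : Fin 4 → Fin 5,
      K' (F 0) (F 1) (G 0) (G 1) * L' (F 2) (F 3) (G 2) (G 3) *
        (awF a b₀ b₁ F σ * awF a b₀ b₁ G τ) := by
      rw [hK, hL]
      exact e3
    rw [e2, ← mul_assoc (C b₀ _ _ _ _), e4, Finset.sum_mul, Finset.mul_sum, Finset.mul_sum]
    refine Finset.sum_congr rfl fun F _ => ?_
    rw [Finset.sum_mul, Finset.mul_sum, Finset.mul_sum]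
    refine Finset.sum_congr rfl fun G _ => ?_
    ring
  unfold gmw
  simp only [e1]
  have e5 : ∀ F G : Fin 4 → Fin 5,
      K' (F 0) (F 1) (G 0) (G 1) * L' (F 2) (F 3) (G 2) (G 3) *
        gmw2 (fun σ => w σ * awF a b₀ b₁ F σ) (fun σ => w σ * awF a b₀ b₁ G σ)
            ((S.erase b₀).erase b₁) C =
      ∑ σ : Equiv.Perm (Fin m × Bool), ∑ τ : Equiv.Perm (Fin m × Bool),
        K' (F 0) (F 1) (G 0) (G 1) * L' (F 2) (F 3) (G 2) (G 3) *
          (sn σ * sn τ * ((w σ * awF a b₀ b₁ F σ) * (w τ * awF a b₀ b₁ G τ) * R σ τ)) := by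
    intro F G
    unfold gmw2
    rw [Finset.mul_sum]
    exact Finset.sum_congr rfl fun σ _ => Finset.mul_sum _ _ _
  simp only [e5]
  simp only [← Fintype.sum_prod_type']
  refine Fintype.sum_equiv ⟨fun x => (x.2.2.1, x.2.2.2, x.1, x.2.1),
      fun x => (x.2.2.1, x.2.2.2, x.1, x.2.1), fun _ => rfl, fun _ => rfl⟩ _ _ ?_
  intro x
  rfl

end Pool.Agent.W60.HD
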